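import Mathlib

open Set

namespace Pool.Agent.Results.MP_4ba699_an.Counterexample

/-- Gradient of `f` at `x`. -/
noncomputable def grad {n : ℕ} (f : (Fin n → ℝ) → ℝ) (x : Fin n → ℝ) : Fin n → ℝ :=
  fun i => fderiv ℝ f x (Pi.single i 1)

/-- Hessian matrix of `f` at `x`. -/
noncomputable def hess {n : ℕ} (f : (Fin n → ℝ) → ℝ) (x : Fin n → ℝ) :
    Matrix (Fin n) (Fin n) ℝ :=
  Matrix.of fun i j => fderiv ℝ (fun z => grad f z j) x (Pi.single i 1)

/-- Shape operator `g⁻¹ II` of the graph of `f` over `x` for the upward unit normal: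
`g = I + ∇f ∇fᵀ`, `II = D²f / √(1 + |∇f|²)`. -/
noncomputable def shape {n : ℕ} (f : (Fin n → ℝ) → ℝ) (x : Fin n → ℝ) :
    Matrix (Fin n) (Fin n) ℝ :=
  (1 + Matrix.vecMulVec (grad f x) (grad f x))⁻¹ *
    ((1 / Real.sqrt (1 + ∑ i, grad f x i ^ 2)) • hess f x)

/-- `σ_m` of the principal curvatures (eigenvalues of the shape operator, with multiplicity). -/
noncomputable def sigma {n : ℕ} (m : ℕ) (f : (Fin n → ℝ) → ℝ) (x : Fin n → ℝ) : ℝ :=
  (shape f x).charpoly.roots.esymm m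

/-- The point `(t, y)` of `ℝ^(k+1)`. -/
def pt {k : ℕ} (t : ℝ) (y : Fin k → ℝ) : Fin (k + 1) → ℝ := Fin.cons t y

lemma grad_eq {k : ℕ} (g g1 : ℝ → ℝ) (hg : ∀ t, HasDerivAt g (g1 t) t) (x : Fin (k + 1) → ℝ)
    (i : Fin (k + 1)) : grad (fun z => g (z 0)) x i = if i = 0 then g1 (x 0) else 0 := by
  have h := (hg (x 0)).comp_hasFDerivAt x
    (hasFDerivAt_apply (𝕜 := ℝ) (0 : Fin (k + 1)) x)
  have h' : fderiv ℝ (fun z : Fin (k + 1) → ℝ => g (z 0)) x = _ := h.fderiv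
  unfold grad
  rw [h']
  by_cases hi : i = 0
  · simp [hi]
  · simp [hi, Pi.single_eq_of_ne (Ne.symm hi)]

lemma sigma_zero {k m : ℕ} (hm : 2 ≤ m) (g g1 g2 : ℝ → ℝ) (hg : ∀ t, HasDerivAt g (g1 t) t)
    (hg1 : ∀ t, HasDerivAt g1 (g2 t) t) (x : Fin (k + 1) → ℝ) :
    sigma m (fun z => g (z 0)) x = 0 := by
  have hh : hess (fun z => g (z 0)) x
      = Matrix.diagonal (fun i : Fin (k + 1) => if i = 0 then g2 (x 0) else 0) := by
    ext i j
    simp only [hess, Matrix.of_apply, grad_eq g g1 hg]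
    by_cases hj : j = 0
    · simp only [hj, if_true]
      have := grad_eq g1 g2 hg1 x i
      unfold grad at this
      rw [this]
      by_cases hi : i = 0 <;> simp [hi, Matrix.diagonal]
    · by_cases hi : i = j <;> simp [hi, hj, Matrix.diagonal]
  have hv : (1 + Matrix.vecMulVec (grad (fun z => g (z 0)) x) (grad (fun z => g (z 0)) x))
      = Matrix.diagonal (fun i : Fin (k + 1) => if i = 0 then 1 + g1 (x 0) ^ 2 else 1) := by
    ext i j
    simp only [Matrix.add_apply, Matrix.vecMulVec_apply, grad_eq g g1 hg, Matrix.one_apply,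
      Matrix.diagonal_apply]
    by_cases hi : i = 0 <;> by_cases hj : j = 0 <;> by_cases hij : i = j <;>
      simp_all [sq]
  obtain ⟨d, hd, hd0⟩ : ∃ d : Fin (k + 1) → ℝ, shape (fun z => g (z 0)) x = Matrix.diagonal d ∧
      ∀ i, i ≠ 0 → d i = 0 := by
    unfold shape
    rw [hv, hh, Matrix.inv_diagonal, ← Matrix.diagonal_smul, Matrix.diagonal_mul_diagonal]
    exact ⟨_, rfl, fun i hi => by simp [hi]⟩
  unfold sigma
  rw [hd, Matrix.charpoly_diagonal]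
  have : (∏ i, (Polynomial.X - Polynomial.C (d i)))
      = ((Finset.univ.val.map d).map fun a => Polynomial.X - Polynomial.C a).prod := by
    rw [Multiset.map_map]; rfl
  rw [this, Polynomial.roots_multiset_prod_X_sub_C, Finset.esymm_map_val]
  refine Finset.sum_eq_zero fun t ht => ?_
  have hc : 1 < t.card := by
    rw [(Finset.mem_powersetCard.1 ht).2]; omega
  obtain ⟨i, hi, hi0⟩ := Finset.exists_mem_ne hc 0
  exact Finset.prod_eq_zero hi (hd0 i hi0)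

lemma d1 (c t : ℝ) : HasDerivAt (fun t : ℝ => t ^ 2 + c * t ^ 3) (2 * t + 3 * c * t ^ 2) t :=
  ((hasDerivAt_pow 2 t).add ((hasDerivAt_pow 3 t).const_mul c)).congr_deriv (by push_cast; ring)

lemma d2 (c t : ℝ) : HasDerivAt (fun t : ℝ => 2 * t + 3 * c * t ^ 2) (2 + 6 * c * t) t :=
  (((hasDerivAt_id t).const_mul 2).add ((hasDerivAt_pow 2 t).const_mul (3 * c))).congr_deriv
    (by push_cast; ring)

theorem result (k m : ℕ) (hm : 2 ≤ m) :
    ∃ u v : (Fin (k + 1) → ℝ) → ℝ, ContDiff ℝ ⊤ u ∧ ContDiff ℝ ⊤ v ∧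
      (∀ t y, 0 < t → t < 1 → ∑ i, y i ^ 2 < 1 →
        v (pt t y) ≤ u (pt t y) ∧ 0 ≤ v (pt t y) ∧ 0 < grad u (pt t y) 0) ∧
      (∀ y, ∑ i, y i ^ 2 < 1 → u (pt 0 y) = v (pt 0 y)) ∧
      u 0 = 0 ∧ v 0 = 0 ∧ grad u 0 0 = 0 ∧
      (∀ t s y, u (pt t y) = v (pt s y) → sigma m u (pt t y) ≤ sigma m v (pt s y)) ∧
      ContDiff ℝ ⊤ (fun x : Fin (k + 1) → ℝ =>
        if 0 ≤ x 0 then v x else u (pt (-x 0) (Fin.tail x))) ∧
      ∀ ε > 0, ∃ t y, 0 < t ∧ t < 1 ∧ ∑ i, y i ^ 2 < 1 ∧ t ^ 2 + ∑ i, y i ^ 2 < ε ^ 2 ∧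
        u (pt t y) ≠ v (pt t y) ∧ v (pt t y) ≠ 0 := by
  refine ⟨fun z => z 0 ^ 2 + (1/3) * z 0 ^ 3, fun z => z 0 ^ 2 + (-1/3) * z 0 ^ 3,
    by fun_prop, by fun_prop, fun t y h0 h1 _ => ?_, fun y _ => by simp [pt], by simp, by simp,
    ?_, fun t s y _ => ?_, ?_, fun ε hε => ?_⟩
  · rw [grad_eq _ _ (d1 (1/3))]
    simp only [pt, Fin.cons_zero, if_true]
    have := pow_pos h0 3
    have := mul_pos (pow_pos h0 2) (show 0 < 3 - t by linarith)
    refine ⟨by linarith, by nlinarith, by positivity⟩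
  · rw [grad_eq _ _ (d1 (1/3))]; simp
  · rw [sigma_zero hm _ _ _ (d1 (1/3)) (d2 (1/3)), sigma_zero hm _ _ _ (d1 (-1/3)) (d2 (-1/3))]
  · have : (fun x : Fin (k + 1) → ℝ => if 0 ≤ x 0 then x 0 ^ 2 + (-1/3) * x 0 ^ 3 else
        (pt (-x 0) (Fin.tail x)) 0 ^ 2 + (1/3) * (pt (-x 0) (Fin.tail x)) 0 ^ 3)
        = fun x => x 0 ^ 2 + (-1/3) * x 0 ^ 3 := by
      ext x
      split_ifs
      · rfl
      · simp only [pt, Fin.cons_zero]; ring
    rw [this]; fun_prop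
  · have h0 : 0 < min (ε / 2) (1 / 2) := by positivity
    have h1 : min (ε / 2) (1 / 2) ≤ ε / 2 := min_le_left _ _
    have h2 : min (ε / 2) (1 / 2) ≤ 1 / 2 := min_le_right _ _
    generalize min (ε / 2) (1 / 2) = t at *
    refine ⟨t, 0, h0, by linarith, by simp, by simp; nlinarith [abs_of_pos h0, abs_of_pos hε], ?_, ?_⟩
    · simp only [pt, Fin.cons_zero]
      have := pow_pos h0 3
      linarith
    · simp only [pt, Fin.cons_zero]
      have := mul_pos (pow_pos h0 2) (show 0 < 3 - t by linarith)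
      nlinarith

end Pool.Agent.Results.MP_4ba699_an.Counterexample
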